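import Pool.Agent.H44.GT.Targets
import Pool.Agent.H44.DU.Targets2

/-!
# A continuous invariant function on a minimal foliation is constant
-/

set_option autoImplicit false

namespace Pool.Agent.H61.GD

open Pool.Agent.H44.DU

variable {n : ℕ} (S : Surf n)

theorem xl_lt_xr (t : ℝ) (i : Fin n) : S.xl t i < S.xr t i := by
  by_contra hc
  have hc : S.xr t i ≤ S.xl t i := not_lt.1 hc
  have h0 := S.orient i
  have a0 : S.xl t i ≤ xi t (S.v i 0) := min_le_left _ _
  have a1 : S.xl t i ≤ xi t (S.v i 1) := (min_le_right _ _).trans (min_le_left _ _)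
  have a2 : S.xl t i ≤ xi t (S.v i 2) := (min_le_right _ _).trans (min_le_right _ _)
  have b0 : xi t (S.v i 0) ≤ S.xr t i := le_max_left _ _
  have b1 : xi t (S.v i 1) ≤ S.xr t i := (le_max_left _ _).trans (le_max_right _ _)
  have b2 : xi t (S.v i 2) ≤ S.xr t i := (le_max_right _ _).trans (le_max_right _ _)
  have e1 : xi t (S.v i 1) = xi t (S.v i 0) := by linarith
  have e2 : xi t (S.v i 2) = xi t (S.v i 0) := by linarith
  simp only [xi] at e1 e2
  simp only [Complex.sub_re, Complex.sub_im] at h0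
  have r1 : (S.v i 1).re = (S.v i 0).re + t * ((S.v i 1).im - (S.v i 0).im) := by linarith
  have r2 : (S.v i 2).re = (S.v i 0).re + t * ((S.v i 2).im - (S.v i 0).im) := by linarith
  rw [r1, r2] at h0
  have : ((S.v i 0).re + t * ((S.v i 1).im - (S.v i 0).im) - (S.v i 0).re) *
      ((S.v i 2).im - (S.v i 0).im) - ((S.v i 1).im - (S.v i 0).im) *
      ((S.v i 0).re + t * ((S.v i 2).im - (S.v i 0).im) - (S.v i 0).re) = 0 := by ring
  linarith

theorem exists_exit (t : ℝ) (i : Fin n) (x : ℝ) (h1 : S.xl t i < x) (h2 : x < S.xr t i)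
    (h : ∀ k, x ≠ xi t (S.v i k)) : ∃ r : Side n, r.1 = i ∧ S.InJ t r x := by
  simp only [Surf.xl, min_lt_iff] at h1
  simp only [Surf.xr, lt_max_iff] at h2
  have e0 : ((0 : Fin 3) + 1) = 1 := rfl
  have e1 : ((1 : Fin 3) + 1) = 2 := rfl
  have e2 : ((2 : Fin 3) + 1) = 0 := rfl
  have k0 : xi t (S.v i 1) < x → x < xi t (S.v i 0) → ∃ r : Side n, r.1 = i ∧ S.InJ t r x :=
    fun p q => ⟨(i, 0), rfl, by
      unfold Surf.InJ Surf.P Surf.Q
      simp only [e0]
      exact ⟨p, q⟩⟩
  have k1 : xi t (S.v i 2) < x → x < xi t (S.v i 1) → ∃ r : Side n, r.1 = i ∧ S.InJ t r x :=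
    fun p q => ⟨(i, 1), rfl, by
      unfold Surf.InJ Surf.P Surf.Q
      simp only [e1]
      exact ⟨p, q⟩⟩
  have k2 : xi t (S.v i 0) < x → x < xi t (S.v i 2) → ∃ r : Side n, r.1 = i ∧ S.InJ t r x :=
    fun p q => ⟨(i, 2), rfl, by
      unfold Surf.InJ Surf.P Surf.Q
      simp only [e2]
      exact ⟨p, q⟩⟩
  rcases lt_or_gt_of_ne (h 0) with a | a <;> rcases lt_or_gt_of_ne (h 1) with b | b <;>
    rcases lt_or_gt_of_ne (h 2) with c | c
  · exfalso
    rcases h1 with h1 | h1 | h1 <;> linarith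
  · exact k1 c b
  · exact k0 b a
  · exact k0 b a
  · exact k2 a c
  · exact k1 c b
  · exact k2 a c
  · exfalso
    rcases h2 with h2 | h2 | h2 <;> linarith

theorem pf_M_CST (hI : T_INF) : M_CST := by
  intro n S t h _ hG hM hc hinv
  rcases Nat.eq_zero_or_pos n with hn | hn
  · subst hn
    exact ⟨0, fun i => i.elim0⟩
  · obtain ⟨y, hy⟩ := hI n S t hn hG
    have hk : ∀ k, h (y k).1.1 (y k).2 = h (y 0).1.1 (y 0).2 := by
      intro k
      induction k with
      | zero => rfl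
      | succ k ih =>
        obtain ⟨q1, _, q3, q4⟩ := hy k
        rw [← ih, ← hinv _ _ q1, q3, q4]
    refine ⟨h (y 0).1.1 (y 0).2, ?_⟩
    have hJ : ∀ (r : Side n) (x : ℝ), S.InJ t r x → h r.1 x = h (y 0).1.1 (y 0).2 := by
      intro r x hx
      have hA := hM.fwd y hy r x hx
      by_contra hne
      have hd : 0 < |h r.1 x - h (y 0).1.1 (y 0).2| := abs_pos.2 (sub_ne_zero.2 hne)
      obtain ⟨ε, he, hε⟩ := Metric.continuous_iff.1 (hc r.1) x _ hd
      obtain ⟨k, _, g1, g2⟩ := hA ε he 0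
      have g1 : (y k).1 = r := g1
      have g2 : |(y k).2 - x| < ε := g2
      have g3 := hε (y k).2 (by rw [Real.dist_eq]; exact g2)
      have g4 := hk k
      rw [g1] at g4
      rw [g4, Real.dist_eq, abs_sub_comm] at g3
      exact lt_irrefl _ g3
    intro i x hx1 hx2
    have hcl : IsClosed {z | h i z = h (y 0).1.1 (y 0).2} := isClosed_eq (hc i) continuous_const
    have hfin : (Set.range fun k => xi t (S.v i k)).Countable := (Set.finite_range _).countable
    have hden : Dense (Set.range fun k => xi t (S.v i k))ᶜ := hfin.dense_compl ℝ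
    have hsub : Set.Ioo (S.xl t i) (S.xr t i) ∩ (Set.range fun k => xi t (S.v i k))ᶜ ⊆
        {z | h i z = h (y 0).1.1 (y 0).2} := by
      rintro z ⟨hz1, hz2⟩
      obtain ⟨r, hr, hz⟩ := exists_exit S t i z hz1.1 hz1.2 fun k e => hz2 ⟨k, e.symm⟩
      have := hJ r z hz
      rw [hr] at this
      exact this
    have h1 : Set.Ioo (S.xl t i) (S.xr t i) ⊆ {z | h i z = h (y 0).1.1 (y 0).2} :=
      (hden.open_subset_closure_inter isOpen_Ioo).trans (closure_minimal hsub hcl)
    have h2 : Set.Icc (S.xl t i) (S.xr t i) ⊆ {z | h i z = h (y 0).1.1 (y 0).2} := by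
      rw [← closure_Ioo (xl_lt_xr S t i).ne]
      exact closure_minimal h1 hcl
    exact h2 ⟨hx1, hx2⟩

end Pool.Agent.H61.GD
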