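import Pool.Agent.H25.GD.Targets

/-!
# An abstract second moment inequality
-/
set_option autoImplicit false
open MeasureTheory Filter Topology Set

namespace Pool.Agent.H61.GD

theorem vabs_core (J : Set ℝ) (U : Set ℂ) (g : ℝ → ℂ → ℝ) (ρ C N B : ℝ)
    (hJ : MeasurableSet J) (hU : MeasurableSet U) (hJf : volume J < ⊤) (hUf : volume U < ⊤)
    (hρ : 0 ≤ ρ) (hC : 0 ≤ C) (hN : 0 ≤ N)
    (hc : ContinuousOn (fun q : ℝ × ℂ => g q.1 q.2) (J ×ˢ U))
    (hb : ∀ t ∈ J, ∀ z ∈ U, 0 ≤ g t z ∧ g t z ≤ B)
    (h1 : ∀ t ∈ J, ∀ t' ∈ J, ρ ≤ t' - t → ∫ z in U, g t z * g t' z ≤ C)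
    (h2 : ∀ t ∈ J, ∀ t' ∈ J, ∫ z in U, g t z * g t' z ≤ N) :
    IntegrableOn (fun z => (∫ t in J, g t z) ^ 2) U ∧
    ∫ z in U, (∫ t in J, g t z) ^ 2 ≤
      C * (volume J).toReal ^ 2 + 2 * ρ * N * (volume J).toReal := by
  classical
  -- the measurable extension
  obtain ⟨G, hGm, hGe, hGb⟩ : ∃ G : ℝ → ℂ → ℝ, Measurable (fun q : ℝ × ℂ => G q.1 q.2) ∧
      (∀ t ∈ J, ∀ z ∈ U, G t z = g t z) ∧ ∀ t z, 0 ≤ G t z ∧ G t z ≤ max B 0 := by
    refine ⟨fun t z => (J ×ˢ U).piecewise (fun q : ℝ × ℂ => g q.1 q.2) (fun _ => 0) (t, z),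
      ?_, ?_, ?_⟩
    · exact hc.measurable_piecewise continuousOn_const (hJ.prod hU)
    · intro t ht z hz
      simp [Set.piecewise, ht, hz]
    · intro t z
      by_cases h : t ∈ J ∧ z ∈ U
      · have := hb t h.1 z h.2
        simp [Set.piecewise, h.1, h.2, this.1, this.2]
      · have h' : (t, z) ∉ J ×ˢ U := by simpa [Set.mem_prod] using h
        simp only [Set.piecewise, h', if_false]
        exact ⟨le_refl 0, le_max_right _ _⟩
  set M : ℝ := max B 0 with hM
  have hM0 : 0 ≤ M := le_max_right _ _
  have : IsFiniteMeasure (volume.restrict J) := ⟨by simpa using hJf⟩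
  have : IsFiniteMeasure (volume.restrict U) := ⟨by simpa using hUf⟩
  set m : ℝ := (volume J).toReal with hm
  have hm0 : 0 ≤ m := ENNReal.toReal_nonneg
  -- the average
  set a : ℂ → ℝ := fun z => ∫ t in J, G t z with ha
  have hae : ∀ z ∈ U, ∫ t in J, g t z = a z := by
    intro z hz
    exact setIntegral_congr_fun hJ (fun t ht => (hGe t ht z hz).symm)
  have hGz : ∀ z, Measurable (fun t => G t z) := fun z => hGm.comp (measurable_id.prodMk
    measurable_const)
  have hGt : ∀ t, Measurable (fun z => G t z) := fun t => hGm.comp (measurable_const.prodMk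
    measurable_id)
  have hGi : ∀ z, Integrable (fun t => G t z) (volume.restrict J) := fun z =>
    Integrable.of_bound (hGz z).aestronglyMeasurable M
      (Eventually.of_forall fun t => by
        rw [Real.norm_eq_abs, abs_of_nonneg (hGb t z).1]; exact (hGb t z).2)
  have ham : StronglyMeasurable a := by
    have : StronglyMeasurable (fun q : ℝ × ℂ => G q.1 q.2) := hGm.stronglyMeasurable
    exact this.integral_prod_left' (μ := volume.restrict J)
  have ha0 : ∀ z, 0 ≤ a z := fun z => integral_nonneg fun t => (hGb t z).1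
  have haM : ∀ z, a z ≤ M * m := by
    intro z
    have := integral_mono (hGi z) (integrable_const M) (fun t => (hGb t z).2)
    rw [integral_const] at this
    simp only [smul_eq_mul, Measure.real, Measure.restrict_apply_univ] at this
    rw [mul_comm] at this
    exact this
  have hint : Integrable (fun z => (a z) ^ 2) (volume.restrict U) := by
    refine Integrable.of_bound (ham.pow 2).aestronglyMeasurable ((M * m) ^ 2)
      (Eventually.of_forall fun z => ?_)
    rw [Real.norm_eq_abs, abs_of_nonneg (sq_nonneg _)]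
    exact pow_le_pow_left₀ (ha0 z) (haM z) 2
  refine ⟨?_, ?_⟩
  · exact (integrableOn_congr_fun (fun z hz => by rw [hae z hz]) hU).2 hint
  have e1 : ∫ z in U, (∫ t in J, g t z) ^ 2 = ∫ z in U, (a z) ^ 2 :=
    setIntegral_congr_fun hU (fun z hz => by simp only [hae z hz])
  rw [e1]
  -- first Fubini
  have e2 : ∫ z in U, (a z) ^ 2 = ∫ z in U, ∫ t in J, G t z * a z := by
    refine integral_congr_ae (Eventually.of_forall fun z => ?_)
    simp only [integral_mul_const, sq]
    rfl
  have hFi : Integrable (fun q : ℂ × ℝ => G q.2 q.1 * a q.1)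
      ((volume.restrict U).prod (volume.restrict J)) := by
    refine Integrable.of_bound ?_ (M * (M * m)) (Eventually.of_forall fun q => ?_)
    · exact ((hGm.comp (measurable_snd.prodMk measurable_fst)).mul
        (ham.measurable.comp measurable_fst)).aestronglyMeasurable
    · rw [Real.norm_eq_abs, abs_of_nonneg (mul_nonneg (hGb _ _).1 (ha0 _))]
      exact mul_le_mul (hGb _ _).2 (haM _) (ha0 _) hM0
  have e3 : ∫ z in U, ∫ t in J, G t z * a z = ∫ t in J, ∫ z in U, G t z * a z :=
    integral_integral_swap (f := fun z t => G t z * a z) hFi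
  -- the inner integral
  have e4 : ∀ t ∈ J, ∫ z in U, G t z * a z ≤ C * m + N * (2 * ρ) := by
    intro t ht
    have i1 : ∫ z in U, G t z * a z = ∫ z in U, ∫ t' in J, G t z * G t' z := by
      refine integral_congr_ae (Eventually.of_forall fun z => ?_)
      simp only [integral_const_mul]
      rfl
    have hFi2 : Integrable (fun q : ℂ × ℝ => G t q.1 * G q.2 q.1)
        ((volume.restrict U).prod (volume.restrict J)) := by
      refine Integrable.of_bound ?_ (M * M) (Eventually.of_forall fun q => ?_)
      · exact (((hGt t).comp measurable_fst).mul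
          (hGm.comp (measurable_snd.prodMk measurable_fst))).aestronglyMeasurable
      · rw [Real.norm_eq_abs, abs_of_nonneg (mul_nonneg (hGb _ _).1 (hGb _ _).1)]
        exact mul_le_mul (hGb _ _).2 (hGb _ _).2 (hGb _ _).1 hM0
    have i2 : ∫ z in U, ∫ t' in J, G t z * G t' z = ∫ t' in J, ∫ z in U, G t z * G t' z :=
      integral_integral_swap (f := fun z t' => G t z * G t' z) hFi2
    rw [i1, i2]
    have hH : ∀ t' ∈ J, ∫ z in U, G t z * G t' z = ∫ z in U, g t z * g t' z := fun t' ht' =>
      setIntegral_congr_fun hU (fun z hz => by simp only [hGe t ht z hz, hGe t' ht' z hz])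
    have hle : ∀ t' ∈ J, ∫ z in U, G t z * G t' z ≤
        C + (Ioo (t - ρ) (t + ρ)).indicator (fun _ => N) t' := by
      intro t' ht'
      rw [hH t' ht']
      by_cases hin : t' ∈ Ioo (t - ρ) (t + ρ)
      · rw [indicator_of_mem hin]
        have := h2 t ht t' ht'
        linarith
      · rw [indicator_of_notMem hin, add_zero]
        rcases not_and_or.1 (show ¬ (t - ρ < t' ∧ t' < t + ρ) from hin) with h | h
        · have h3 := h1 t' ht' t ht (by linarith [not_lt.1 h])
          have h4 : ∫ z in U, g t z * g t' z = ∫ z in U, g t' z * g t z := by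
            refine integral_congr_ae (Eventually.of_forall fun z => ?_)
            simp only [mul_comm]
          rw [h4]; exact h3
        · exact h1 t ht t' ht' (by linarith [not_lt.1 h])
    have hi3 : Integrable (fun t' => ∫ z in U, G t z * G t' z) (volume.restrict J) :=
      hFi2.integral_prod_right
    have hi4 : Integrable (fun t' => C + (Ioo (t - ρ) (t + ρ)).indicator (fun _ => N) t')
        (volume.restrict J) :=
      (integrable_const C).add ((integrable_const N).indicator measurableSet_Ioo)
    have h5 : ∫ t' in J, ∫ z in U, G t z * G t' z ≤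
        ∫ t' in J, (C + (Ioo (t - ρ) (t + ρ)).indicator (fun _ => N) t') :=
      setIntegral_mono_on hi3 hi4 hJ hle
    refine h5.trans ?_
    rw [integral_add (integrable_const C) ((integrable_const N).indicator measurableSet_Ioo),
      integral_const, integral_indicator measurableSet_Ioo,
      Measure.restrict_restrict measurableSet_Ioo, setIntegral_const]
    simp only [smul_eq_mul, Measure.real, Measure.restrict_apply_univ]
    have h6 : (volume (Ioo (t - ρ) (t + ρ) ∩ J)).toReal ≤ 2 * ρ := by
      have h7 : volume (Ioo (t - ρ) (t + ρ) ∩ J) ≤ ENNReal.ofReal (2 * ρ) := by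
        refine (measure_mono inter_subset_left).trans ?_
        rw [Real.volume_Ioo]
        exact ENNReal.ofReal_le_ofReal (by linarith)
      exact ENNReal.toReal_le_of_le_ofReal (by linarith) h7
    have h8 := mul_le_mul_of_nonneg_right h6 hN
    have h9 : m * C = C * m := mul_comm _ _
    rw [← hm]
    linarith
  rw [e2, e3]
  have hi5 : Integrable (fun t => ∫ z in U, G t z * a z) (volume.restrict J) :=
    hFi.integral_prod_right
  have h10 := setIntegral_mono_on hi5 (integrable_const (C * m + N * (2 * ρ))) hJ e4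
  refine h10.trans ?_
  rw [setIntegral_const]
  simp only [smul_eq_mul, Measure.real]
  rw [← hm]
  apply le_of_eq
  ring

open Pool.Agent.H44.DU in
/-- the square of an average over a set of parameters -/
theorem pf_V_ABS : V_ABS := by
  intro J U g ρ C N B hJ hU hJf hUf hρ hC hN hc hb h1 h2
  exact vabs_core J U g ρ C N B hJ hU hJf hUf hρ hC hN hc hb h1 h2

end Pool.Agent.H61.GD
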